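import Pool.Agent.MP_648617_ag.kol.Mini

/-! A rational surface singularity with a deformation component that no P-modification
parametrizes. -/

open AlgebraicGeometry

namespace Pool.Agent.Results.MP_648617_ag.Counterexample

open Pool.Agent.MP_648617_ag

theorem result : ∃ (A₀ : Type) (_ : CommRing A₀) (_ : Algebra ℂ A₀) (m : Ideal A₀),
    IsRationalSurface A₀ ∧ m.IsMaximal ∧
    ∃ (R : Type) (_ : CommRing R) (_ : Algebra ℂ R) (_ : IsGerm R)
      (D : Defo (AdicCompletion m A₀) R), D.IsMiniversal ∧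
      ∃ q ∈ minimalPrimes R, ∀ (U : Scheme.{0}) [IsIntegral U]
        (f : U ⟶ Spec (.of (AdicCompletion m A₀))), IsPModification f → ¬Parametrizes f D q := by
  obtain ⟨A₀, _, _, m, h1, h2, ⟨R₀, _, _, _, D₀, hD₀⟩, H⟩ := Kol.mainStmt
  obtain ⟨R, _, _, _, D, hD⟩ := Kol.mini _ R₀ D₀ hD₀
  exact ⟨A₀, _, _, m, h1, h2, R, _, _, _, D, hD, H R D hD.1⟩

end Pool.Agent.Results.MP_648617_ag.Counterexample
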